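import Pool.Agent.H20.Toric

set_option autoImplicit false

open MvPolynomial

namespace Pool.Agent.Results.MP_c5e1a2_co.Counter

/-- Words of length `L + 1` over `S` states without self-loops. -/
abbrev Word (S L : ℕ) := {w : Fin (L + 1) → Fin S // ∀ t : Fin L, w t.castSucc ≠ w t.succ}

/-- Ordered pairs of distinct states. -/
abbrev Arc (S : ℕ) := {p : Fin S × Fin S // p.1 ≠ p.2}

/-- The design matrix: the number of transitions from `i` to `j` in the word. -/
def design (S L : ℕ) (p : Arc S) (w : Word S L) : ℕ :=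
  (Finset.univ.filter fun t : Fin L => w.1 t.castSucc = p.1.1 ∧ w.1 t.succ = p.1.2).card

/-- The toric ideal of the design matrix. -/
noncomputable def toricIdeal (k : Type) [Field k] (S L : ℕ) : Ideal (MvPolynomial (Word S L) k) :=
  RingHom.ker (aeval fun w => ∏ p, (X p ^ design S L p w : MvPolynomial (Arc S) k))

/-- The eight words on the chosen face. -/
def c : Fin 8 → Word 6 3 :=
  ![⟨![5, 3, 5, 3], by decide⟩, ⟨![4, 1, 4, 1], by decide⟩, ⟨![2, 4, 1, 4], by decide⟩,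
    ⟨![0, 2, 3, 5], by decide⟩, ⟨![3, 5, 3, 5], by decide⟩, ⟨![2, 3, 5, 3], by decide⟩,
    ⟨![1, 4, 1, 4], by decide⟩, ⟨![0, 2, 4, 1], by decide⟩]

/-- The transitions used on the chosen face. -/
def ok (a b : Fin 6) : Bool := (a, b) ∈ [(0, 2), (2, 3), (2, 4), (3, 5), (5, 3), (4, 1), (1, 4)]

lemma c_inj : Function.Injective c := by decide +kernel

lemma c_ok : ∀ j (p : Arc 6), design 6 3 p (c j) ≠ 0 → ok p.1.1 p.1.2 := by decide +kernel

lemma ok_c : ∀ a b d e : Fin 6, (ok a b && ok b d && ok d e) → ∃ j, (c j).1 = ![a, b, d, e] := by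
  decide +kernel

/-- The seven transitions of the face. -/
def ar : Fin 7 → Arc 6 := ![⟨(0, 2), by decide⟩, ⟨(2, 3), by decide⟩, ⟨(2, 4), by decide⟩,
  ⟨(3, 5), by decide⟩, ⟨(5, 3), by decide⟩, ⟨(4, 1), by decide⟩, ⟨(1, 4), by decide⟩]

lemma tb : ∀ i j, design 6 3 (ar i) (c j) = ![![0, 0, 0, 1, 0, 0, 0, 1], ![0, 0, 0, 1, 0, 1, 0, 0],
    ![0, 0, 1, 0, 0, 0, 0, 1], ![1, 0, 0, 1, 2, 1, 0, 0], ![2, 0, 0, 0, 1, 1, 0, 0],
    ![0, 2, 1, 0, 0, 0, 1, 1], ![0, 1, 1, 0, 0, 0, 2, 0]] i j := by decide +kernel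

lemma sm (F : Word 6 3 → ℕ) (h : ∀ t, F t ≠ 0 → ∃ j, c j = t) : ∑ t, F t = ∑ j, F (c j) :=
  (Fintype.sum_of_injective c c_inj _ _ (fun t ht => by_contra fun e => ht (h t e))
    fun _ => rfl).symm

theorem result (k : Type) [Field k] (G : Set (MvPolynomial (Word 6 3) k))
    (hG : Ideal.span G = toricIdeal k 6 3) : ∃ g ∈ G, 9 ≤ g.totalDegree := by
  have ex : ∀ (v : Fin 8 → ℕ) t, Function.extend c v 0 t ≠ 0 → ∃ j, c j = t ∧ v j ≠ 0 :=
    fun v t ht => by
      by_cases h : ∃ j, c j = t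
      · obtain ⟨j, rfl⟩ := h
        exact ⟨j, rfl, c_inj.extend_apply v 0 j ▸ ht⟩
      · exact absurd (Function.extend_apply' v (0 : Word 6 3 → ℕ) t h) ht
  refine H20.Toric.face (design 6 3) (fun t => ∃ j : Fin 8, j < 4 ∧ c j = t) 9
    (fun α β h1 h2 h3 h4 => ?_) (Function.extend c ![2, 1, 3, 3, 0, 0, 0, 0] 0)
    (Function.extend c ![0, 0, 0, 0, 1, 3, 2, 3] 0) (fun t ht => ?_)
    ⟨c 4, by simp [c_inj.extend_apply], by simp [c_inj.eq_iff]⟩ (fun p => ?_) G hG
  · have a1 : ∀ t, α t ≠ 0 → ∃ j, c j = t := fun t ht => (h1 t ht).imp fun _ h => h.2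
    have b1 : ∀ t, β t ≠ 0 → ∃ j, c j = t := fun t ht => by
      have : ∀ s : Fin 3, ok (t.1 s.castSucc) (t.1 s.succ) := fun s => by
        have : ∑ u, design 6 3 ⟨(_, _), t.2 s⟩ u * α u ≠ 0 := by
          rw [h2, Ne, Finset.sum_eq_zero_iff]
          exact fun h => mul_ne_zero (Finset.card_ne_zero.2 ⟨s, by simp⟩) ht
            (h t (Finset.mem_univ t))
        obtain ⟨u, -, hu⟩ := Finset.exists_ne_zero_of_sum_ne_zero this
        obtain ⟨j, rfl⟩ := a1 u (right_ne_zero_of_mul hu)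
        exact c_ok j _ (left_ne_zero_of_mul hu)
      obtain ⟨j, h⟩ := ok_c (t.1 0) (t.1 1) (t.1 2) (t.1 3) (by
        simp only [Bool.and_eq_true]; exact ⟨⟨this 0, this 1⟩, this 2⟩)
      exact ⟨j, by ext1; rw [h]; ext1 i; fin_cases i <;> rfl⟩
    have z : ∀ j : Fin 8, 4 ≤ j → α (c j) = 0 := fun j hj => by_contra fun e => by
      obtain ⟨i, h5, h6⟩ := h1 _ e
      rw [c_inj h6] at h5; omega
    have e := fun p => (sm _ fun t ht => a1 t (right_ne_zero_of_mul ht)).symm.trans ((h2 p).trans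
      (sm _ fun t ht => b1 t (right_ne_zero_of_mul ht)))
    rw [sm α a1] at h3
    have e0 := e (ar 0)
    have e1 := e (ar 1)
    have e2 := e (ar 2)
    have e3 := e (ar 3)
    have e4 := e (ar 4)
    have e5 := e (ar 5)
    have e6 := e (ar 6)
    have z4 := z 4 (by decide)
    have z5 := z 5 (by decide)
    have z6 := z 6 (by decide)
    have z7 := z 7 (by decide)
    simp only [tb, Fin.sum_univ_eight, Matrix.cons_val] at e0 e1 e2 e3 e4 e5 e6 h3
    have f : ∀ j, α (c j) = β (c j) := fun j => by fin_cases j <;> simp <;> omega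
    ext t
    by_cases ht : ∃ j, c j = t
    · obtain ⟨j, rfl⟩ := ht
      exact f j
    · rw [by_contra fun h : ¬α t = 0 => ht (a1 t h), by_contra fun h : ¬β t = 0 => ht (b1 t h)]
  · obtain ⟨j, rfl, hj⟩ := ex _ t ht
    exact ⟨j, by clear ht; revert j; decide, rfl⟩
  · rw [sm _ fun t ht => (ex _ t (right_ne_zero_of_mul ht)).imp fun _ h => h.1,
      sm _ fun t ht => (ex _ t (right_ne_zero_of_mul ht)).imp fun _ h => h.1]
    simp only [c_inj.extend_apply]
    revert p; decide +kernel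

end Pool.Agent.Results.MP_c5e1a2_co.Counter
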